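import Pool.Agent.Helper47.RFn.Alg

/-!
# Project RFn, packet WQ: the quadratic form of `A ∧ id`

`q_{A ∧ id}(z, w) = (1/2) ∑_j A(v_j, v̄_j)` with `v_j = w_j z - z_j w`.
-/

set_option autoImplicit false

namespace Pool.Agent.Helper47.RFn

open Finset

/-- sesquilinear form of a matrix -/
noncomputable def hf {n : ℕ} (A : M2 n) (z w : Fin n → ℂ) : ℂ :=
  ∑ a, ∑ c, (A a c : ℂ) * z a * star (w c)

theorem wq_T1 {n : ℕ} (A B : M2 n) (z w : Fin n → ℂ) :
    ∑ a, ∑ b, ∑ c, ∑ d, (A a c : ℂ) * (B b d : ℂ) * (z a * w b * star (z c) * star (w d))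
      = hf A z z * hf B w w := by
  unfold hf
  rw [Finset.sum_mul_sum]
  refine Finset.sum_congr rfl fun a _ => Finset.sum_congr rfl fun b _ => ?_
  rw [Finset.sum_mul_sum]
  exact Finset.sum_congr rfl fun c _ => Finset.sum_congr rfl fun d _ => by ring

theorem wq_T2 {n : ℕ} (A B : M2 n) (z w : Fin n → ℂ) :
    ∑ a, ∑ b, ∑ c, ∑ d, (A a d : ℂ) * (B b c : ℂ) * (z a * w b * star (z c) * star (w d))
      = hf A z w * hf B w z := by
  unfold hf
  rw [Finset.sum_mul_sum]
  refine Finset.sum_congr rfl fun a _ => Finset.sum_congr rfl fun b _ => ?_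
  rw [Finset.sum_mul_sum, Finset.sum_comm]
  exact Finset.sum_congr rfl fun c _ => Finset.sum_congr rfl fun d _ => by ring

theorem wq_wdg {n : ℕ} (A B : M2 n) (z w : Fin n → ℂ) :
    ∑ a, ∑ b, ∑ c, ∑ d, (wdg A B a b c d : ℂ) * z a * w b * star (z c) * star (w d)
      = (hf A z z * hf B w w - hf A z w * hf B w z + hf B z z * hf A w w
          - hf B z w * hf A w z) / 2 := by
  rw [← wq_T1, ← wq_T2, ← wq_T1, ← wq_T2]
  simp only [← Finset.sum_sub_distrib, ← Finset.sum_add_distrib, Finset.sum_div]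
  refine Finset.sum_congr rfl fun a _ => Finset.sum_congr rfl fun b _ =>
    Finset.sum_congr rfl fun c _ => Finset.sum_congr rfl fun d _ => ?_
  simp only [wdg]
  push_cast
  ring

theorem hf_one {n : ℕ} (z w : Fin n → ℂ) : hf 1 z w = ∑ a, z a * star (w a) := by
  unfold hf
  refine Finset.sum_congr rfl fun a _ => ?_
  rw [Finset.sum_eq_single a]
  · simp
  · intro c _ hc
    simp [Matrix.one_apply_ne hc.symm]
  · intro h
    exact absurd (Finset.mem_univ a) h

theorem hf_comb {n : ℕ} (A : M2 n) (z w : Fin n → ℂ) (s t : ℂ) :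
    hf A (fun i => s * z i - t * w i) (fun i => s * z i - t * w i)
      = s * star s * hf A z z - s * star t * hf A z w - t * star s * hf A w z
        + t * star t * hf A w w := by
  unfold hf
  simp only [Finset.mul_sum, ← Finset.sum_sub_distrib, ← Finset.sum_add_distrib]
  refine Finset.sum_congr rfl fun a _ => Finset.sum_congr rfl fun c _ => ?_
  simp only [star_sub, star_mul']
  ring

theorem hf_re {n : ℕ} (A : M2 n) (v : Fin n → ℂ) :
    (hf A v v).re = rq A (fun i => (v i).re) + rq A (fun i => (v i).im) := by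
  unfold hf rq
  rw [Complex.re_sum, ← Finset.sum_add_distrib]
  refine Finset.sum_congr rfl fun a _ => ?_
  rw [Complex.re_sum, ← Finset.sum_add_distrib]
  refine Finset.sum_congr rfl fun c _ => ?_
  simp only [Complex.mul_re, Complex.mul_im, Complex.ofReal_re, Complex.ofReal_im,
    Complex.star_def, Complex.conj_re, Complex.conj_im]
  ring

/-- `v_j = w_j z - z_j w` -/
noncomputable def vj {n : ℕ} (z w : Fin n → ℂ) (j : Fin n) : Fin n → ℂ :=
  fun i => w j * z i - z j * w i

theorem qf_wdg_one {n : ℕ} (A : M2 n) (z w : Fin n → ℂ) :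
    qf (wdg A 1) z w = (∑ j, (rq A (fun i => (vj z w j i).re)
      + rq A (fun i => (vj z w j i).im))) / 2 := by
  have h1 : ∑ a, ∑ b, ∑ c, ∑ d, (wdg A 1 a b c d : ℂ) * z a * w b * star (z c) * star (w d)
      = (∑ j, hf A (vj z w j) (vj z w j)) / 2 := by
    rw [wq_wdg]
    congr 1
    have h2 : ∀ j, hf A (vj z w j) (vj z w j) = w j * star (w j) * hf A z z
        - w j * star (z j) * hf A z w - z j * star (w j) * hf A w z
        + z j * star (z j) * hf A w w := fun j => hf_comb A z w (w j) (z j)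
    simp only [h2, Finset.sum_add_distrib, Finset.sum_sub_distrib, ← Finset.sum_mul]
    rw [hf_one, hf_one, hf_one, hf_one]
    ring
  unfold qf
  rw [h1]
  have h3 : ((∑ j, hf A (vj z w j) (vj z w j)) / 2).re
      = (∑ j, (hf A (vj z w j) (vj z w j)).re) / 2 := by
    rw [Complex.div_ofNat_re, Complex.re_sum]
  rw [h3]
  congr 1
  exact Finset.sum_congr rfl fun j _ => hf_re A _

theorem rq_one {n : ℕ} (v : Fin n → ℝ) : rq (1 : M2 n) v = nrm v := by
  unfold rq nrm
  refine Finset.sum_congr rfl fun a _ => ?_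
  rw [Finset.sum_eq_single a]
  · simp
    ring
  · intro c _ hc
    simp [Matrix.one_apply_ne hc.symm]
  · intro h
    exact absurd (Finset.mem_univ a) h

theorem qf_Id4 {n : ℕ} (z w : Fin n → ℂ) :
    qf (Id4 n) z w = (∑ j, (nrm (fun i => (vj z w j i).re)
      + nrm (fun i => (vj z w j i).im))) / 2 := by
  unfold Id4
  rw [qf_wdg_one]
  simp only [rq_one]

/-- Packet WQ. -/
theorem goal_WQ : Goal_WQ := by
  intro n A m M _ hm hM z w
  refine ⟨?_, ?_, ?_⟩
  · rw [qf_Id4]
    refine div_nonneg (Finset.sum_nonneg fun j _ => add_nonneg ?_ ?_) (by norm_num) <;>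
    exact Finset.sum_nonneg fun i _ => sq_nonneg _
  · rw [qf_Id4, qf_wdg_one, ← mul_div_assoc, Finset.mul_sum]
    refine div_le_div_of_nonneg_right (Finset.sum_le_sum fun j _ => ?_) (by norm_num)
    rw [mul_add]
    exact add_le_add (hm _) (hm _)
  · rw [qf_Id4, qf_wdg_one, ← mul_div_assoc, Finset.mul_sum]
    refine div_le_div_of_nonneg_right (Finset.sum_le_sum fun j _ => ?_) (by norm_num)
    rw [mul_add]
    exact add_le_add (hM _) (hM _)

end Pool.Agent.Helper47.RFn
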