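import Pool.Agent.Helper47.RFn.CoreN

/-!
# Project RFn, packet C3: commutators and the radial vector
-/

set_option autoImplicit false

namespace Pool.Agent.Helper47.RFn

open Finset

/-- the coordinate vectors -/
noncomputable abbrev c3e {n : ℕ} (i : Fin (n + 1)) : EE n := EuclideanSpace.single i (1 : ℝ)

theorem c3e_apply {n : ℕ} (i j : Fin (n + 1)) : c3e i j = if i = j then (1 : ℝ) else 0 := by
  rw [c3e, PiLp.single_apply]
  by_cases h : i = j
  · subst h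
    simp
  · rw [if_neg h, if_neg (fun h' => h h'.symm)]

theorem c3_coord {n : ℕ} (j : Fin (n + 1)) (x : EE n) :
    HasFDerivAt (fun y : EE n => y j) (EuclideanSpace.proj j : EE n →L[ℝ] ℝ) x :=
  (EuclideanSpace.proj j : EE n →L[ℝ] ℝ).hasFDerivAt

theorem c3_contDiffAt {n : ℕ} {f : EE n → ℝ} (hf : Sm f) {x : EE n} (hx : x ≠ 0) :
    ContDiffAt ℝ oo f x :=
  hf.cd.contDiffAt (isOpen_compl_singleton.mem_nhds hx)

theorem c3_hasFDerivAt {n : ℕ} {f : EE n → ℝ} (hf : Sm f) {x : EE n} (hx : x ≠ 0) :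
    HasFDerivAt f (fderiv ℝ f x) x :=
  ((c3_contDiffAt hf hx).differentiableAt (by simp)).hasFDerivAt

/-- second derivative -/
noncomputable def c3D {n : ℕ} (f : EE n → ℝ) (x : EE n) (i j : Fin (n + 1)) : ℝ :=
  fderiv ℝ (fderiv ℝ f) x (c3e i) (c3e j)

theorem c3_hasFDerivAt_pd {n : ℕ} {f : EE n → ℝ} (hf : Sm f) {x : EE n} (hx : x ≠ 0)
    (j : Fin (n + 1)) :
    HasFDerivAt (pd j f) ((fderiv ℝ (fderiv ℝ f) x).flip (c3e j)) x := by
  have h1 : DifferentiableAt ℝ (fderiv ℝ f) x := by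
    have : ContDiffAt ℝ 1 (fderiv ℝ f) x := (c3_contDiffAt hf hx).fderiv_right (m := 1) (by
      rw [show (1 : WithTop ℕ∞) + 1 = ((2 : ℕ∞) : WithTop ℕ∞) by norm_cast]
      exact_mod_cast le_top)
    exact this.differentiableAt (by norm_num)
  have h2 := h1.hasFDerivAt.clm_apply (hasFDerivAt_const (c3e j) x)
  refine h2.congr_fderiv ?_
  ext v
  simp

theorem c3_pd_pd {n : ℕ} {f : EE n → ℝ} (hf : Sm f) {x : EE n} (hx : x ≠ 0)
    (i j : Fin (n + 1)) : pd i (pd j f) x = c3D f x i j := by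
  unfold pd
  rw [show fderiv ℝ (fun x => fderiv ℝ f x (EuclideanSpace.single j 1)) x =
    (fderiv ℝ (fderiv ℝ f) x).flip (c3e j) from (c3_hasFDerivAt_pd hf hx j).fderiv]
  rfl

theorem c3D_symm {n : ℕ} {f : EE n → ℝ} (hf : Sm f) {x : EE n} (hx : x ≠ 0)
    (i j : Fin (n + 1)) : c3D f x i j = c3D f x j i := by
  have hsym : IsSymmSndFDerivAt ℝ f x := (c3_contDiffAt hf hx).isSymmSndFDerivAt (by
    rw [minSmoothness_of_isRCLikeNormedField]
    show ((2 : ℕ∞) : WithTop ℕ∞) ≤ ((⊤ : ℕ∞) : WithTop ℕ∞)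
    exact WithTop.coe_le_coe.2 le_top)
  exact hsym.eq _ _

theorem c3_norm {n : ℕ} {x : EE n} (hx : x ≠ 0) :
    HasFDerivAt (fun y : EE n => ‖y‖) (‖x‖⁻¹ • innerSL ℝ x) x := by
  have h1 : HasFDerivAt (fun y : EE n => ‖y‖ ^ 2) (2 • innerSL ℝ x) x :=
    (hasStrictFDerivAt_norm_sq x).hasFDerivAt
  have hx' : ‖x‖ ≠ 0 := norm_ne_zero_iff.2 hx
  have h2 := h1.sqrt (pow_ne_zero 2 hx')
  have h3 : (fun y : EE n => Real.sqrt (‖y‖ ^ 2)) = fun y : EE n => ‖y‖ :=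
    funext fun y => Real.sqrt_sq (norm_nonneg y)
  rw [h3] at h2
  refine h2.congr_fderiv ?_
  rw [Real.sqrt_sq (norm_nonneg x)]
  ext v
  simp only [one_div, mul_inv, _root_.smul_apply, smul_eq_mul, nsmul_eq_mul]
  push_cast
  field_simp

theorem c3_norm_e {n : ℕ} (x : EE n) (i : Fin (n + 1)) :
    (‖x‖⁻¹ • innerSL ℝ x) (c3e i) = nn i x := by
  rw [_root_.smul_apply, innerSL_apply_apply, EuclideanSpace.inner_single_right, nn,
    smul_eq_mul]
  simp
  ring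

/-- Euler -/
theorem c3_euler {n : ℕ} {f : EE n → ℝ} (hf : Sm f) {x : EE n} (hx : x ≠ 0) :
    ∑ i, x i * pd i f x = 0 := by
  have h1 : HasDerivAt (fun r : ℝ => r • x) x 1 := by
    simpa using (hasDerivAt_id (1 : ℝ)).smul_const x
  have hd : HasFDerivAt f (fderiv ℝ f x) ((1 : ℝ) • x) := by
    rw [one_smul]
    exact c3_hasFDerivAt hf hx
  have h2 : HasDerivAt (fun r : ℝ => f (r • x)) (fderiv ℝ f x x) 1 := hd.comp_hasDerivAt 1 h1
  have h3 : (fun r : ℝ => f (r • x)) =ᶠ[nhds 1] fun _ => f x := by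
    filter_upwards [lt_mem_nhds (zero_lt_one (α := ℝ))] with r hr
    exact hf.hom r x hr
  have h4 : fderiv ℝ f x x = 0 :=
    (h2.congr_of_eventuallyEq h3.symm).unique (hasDerivAt_const 1 (f x))
  have h5 : x = ∑ i, x i • c3e i := by
    ext j
    simp [c3e, Pi.single_apply]
  have h6 : fderiv ℝ f x (∑ i, x i • c3e i) = 0 := by
    rw [← h5]
    exact h4
  rw [map_sum] at h6
  rw [← h6]
  exact Finset.sum_congr rfl fun i _ => by
    rw [map_smul]
    rfl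

theorem c3_nn_ed {n : ℕ} {x : EE n} (hx : x ≠ 0) (i j : Fin (n + 1)) (f : EE n → ℝ) :
    nn i x * ed j f x = x i * pd j f x := by
  have hx' : ‖x‖ ≠ 0 := norm_ne_zero_iff.2 hx
  unfold nn ed
  field_simp

theorem c3_ed_ed {n : ℕ} {f : EE n → ℝ} (hf : Sm f) {x : EE n} (hx : x ≠ 0)
    (i j : Fin (n + 1)) : ed i (ed j f) x = x i * pd j f x + ‖x‖ ^ 2 * c3D f x i j := by
  have hx' : ‖x‖ ≠ 0 := norm_ne_zero_iff.2 hx
  have h1 := (c3_norm hx).mul (c3_hasFDerivAt_pd hf hx j)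
  have h2 : pd i (ed j f) x = ‖x‖ * c3D f x i j + pd j f x * nn i x := by
    unfold pd
    rw [show fderiv ℝ (ed j f) x = _ from h1.fderiv]
    rw [_root_.add_apply, _root_.smul_apply, _root_.smul_apply, c3_norm_e]
    rfl
  rw [ed, h2, nn]
  field_simp
  ring

theorem c3_sum_sq {n : ℕ} (x : EE n) : ∑ i, x i ^ 2 = ‖x‖ ^ 2 := by
  rw [EuclideanSpace.norm_sq_eq]
  exact Finset.sum_congr rfl fun i _ => by rw [Real.norm_eq_abs, sq_abs]

theorem c3_pd_Lr {n : ℕ} {f : EE n → ℝ} (hf : Sm f) {x : EE n} (hx : x ≠ 0)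
    (j k l : Fin (n + 1)) : pd j (Lr k l f) x = (if j = k then 1 else 0) * pd l f x
      + x k * c3D f x j l - (if j = l then 1 else 0) * pd k f x - x l * c3D f x j k := by
  have h1 := ((c3_coord k x).mul (c3_hasFDerivAt_pd hf hx l)).sub
    ((c3_coord l x).mul (c3_hasFDerivAt_pd hf hx k))
  rw [pd, show fderiv ℝ (Lr k l f) x = _ from h1.fderiv]
  have e : ∀ a b : Fin (n + 1), (EuclideanSpace.proj a : EE n →L[ℝ] ℝ) (c3e b) =
      if b = a then 1 else 0 := fun a b => c3e_apply b a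
  simp only [_root_.sub_apply, _root_.add_apply, _root_.smul_apply, smul_eq_mul, e]
  change x k * c3D f x j l + pd l f x * _ - (x l * c3D f x j k + pd k f x * _) = _
  ring

/-- Packet C3. -/
theorem goal_C3 (_ : Goal_C1) (_ : Goal_C2) : Goal_C3 := by
  intro n
  refine ⟨fun i j f x hf hx => ?_, fun f x hf hx => ?_, fun i j x hx => ?_, fun x hx => ?_,
    fun i f x hf hx => ?_, fun i j f x hf hx => ?_, fun i j k l f x hf hx => ?_⟩
  · rw [c3_ed_ed hf hx, c3_ed_ed hf hx, c3D_symm hf hx i j, c3_nn_ed hx, c3_nn_ed hx]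
    ring
  · simp only [c3_nn_ed hx]
    exact c3_euler hf hx
  · have hx' : ‖x‖ ≠ 0 := norm_ne_zero_iff.2 hx
    have h0 : HasFDerivAt (fun y : EE n => ‖y‖⁻¹) (-(‖x‖ ^ 2)⁻¹ • (‖x‖⁻¹ • innerSL ℝ x)) x :=
      (hasDerivAt_inv hx').comp_hasFDerivAt x (c3_norm hx)
    have h1 := (c3_coord j x).mul h0
    have h1' : HasFDerivAt (nn j : EE n → ℝ) _ x := h1
    have h2 : pd i (nn j) x = x j * (-(‖x‖ ^ 2)⁻¹ * nn i x) + ‖x‖⁻¹ * (if i = j then 1 else 0) := by
      unfold pd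
      rw [h1'.fderiv]
      have e : (EuclideanSpace.proj j : EE n →L[ℝ] ℝ) (c3e i) =
        if i = j then 1 else 0 := c3e_apply i j
      change x j * (-(‖x‖ ^ 2)⁻¹ * (‖x‖⁻¹ • innerSL ℝ x) (c3e i)) +
        ‖x‖⁻¹ * (EuclideanSpace.proj j : EE n →L[ℝ] ℝ) (c3e i) = _
      rw [c3_norm_e, e]
    rw [ed, h2, nn, nn]
    field_simp
    ring
  · have hx' : ‖x‖ ≠ 0 := norm_ne_zero_iff.2 hx
    have h1 : ∑ i, nn i x ^ 2 = (∑ i, x i ^ 2) / ‖x‖ ^ 2 := by
      rw [Finset.sum_div]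
      exact Finset.sum_congr rfl fun i _ => by rw [nn, div_pow]
    rw [h1, c3_sum_sq]
    field_simp
  · have hx' : ‖x‖ ≠ 0 := norm_ne_zero_iff.2 hx
    have h1 : ∑ j, nn j x * Lr j i f x =
        ((∑ j, x j ^ 2) * pd i f x - x i * ∑ j, x j * pd j f x) / ‖x‖ := by
      rw [Finset.sum_mul, Finset.mul_sum, ← Finset.sum_sub_distrib, Finset.sum_div]
      exact Finset.sum_congr rfl fun j _ => by
        unfold nn Lr
        ring
    rw [h1, c3_sum_sq, c3_euler hf hx, ed]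
    field_simp
    ring
  · rw [c3_nn_ed hx, c3_nn_ed hx]
    rfl
  · rw [Lr, Lr, c3_pd_Lr hf hx, c3_pd_Lr hf hx, c3_pd_Lr hf hx, c3_pd_Lr hf hx,
      c3D_symm hf hx l j, c3D_symm hf hx l i, c3D_symm hf hx k j, c3D_symm hf hx k i]
    have s : ∀ a b : Fin (n + 1), (if a = b then (1 : ℝ) else 0) = if b = a then 1 else 0 := by
      intro a b
      by_cases h : a = b
      · rw [if_pos h, if_pos h.symm]
      · rw [if_neg h, if_neg (fun h' => h h'.symm)]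
    rw [s l i, s l j, s k i, s k j]
    unfold Lr
    ring

end Pool.Agent.Helper47.RFn
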