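import Pool.Agent.Helper19.RFn.GoalsM

/-!
# Project RFn (MP_c98eff_gt): comparison of `lam` with a heat solution (packet M-CMB)
-/

set_option autoImplicit false

open Finset Pool.Agent.Helper47.RFn Pool.Agent.Helper73.RFn

namespace Pool.Agent.Helper69.RFn

theorem cmb (hMP1 : Goal_MP1) (hEVS : Goal_EVS) (hPRD : Goal_PRD) : Pool.Agent.Helper19.RFn.CmbStmt := by
  intro n hn T F hF hRF u c hu hIni z t
  have h0 : 0 ≤ F.ev z t (F.lam - c • u) := by
    refine hMP1 n T F hF.toBase (F.lam - c • u) 0 (t : ℝ) 0 1 le_rfl t.2.2 le_rfl one_pos ?_ ?_ z t t.2.1 le_rfl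
    · intro ε hε
      obtain ⟨t0, ht0, _, h⟩ := hIni ε hε
      refine ⟨t0, ht0, fun z s _ hs => ?_⟩
      have := h z s (by simpa using hs)
      simpa using this
    · intro z s _ _ _ _ _
      have hP := (hPRD n T F).1
      have h1 : F.Hop (F.lam - c • u) = F.Hop F.lam - c • F.Hop u := by
        rw [(hP F.lam (c • u)).2.2.1, ((hP u u).2.2.2.1 c).1]
      have h2 : F.Hop u = 0 := by
        unfold FB.Hop
        rw [hu, sub_self]
      have h3 := (hEVS n T F (by omega) hF hRF).1
      rw [h1, h2, smul_zero, sub_zero, h3, zero_mul]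
      have h4 : F.ev z s ((2 / (n : ℝ)) • ∑ a, ∑ b, F.Ric a b ^ 2)
          = (2 / (n : ℝ)) * ∑ a, ∑ b, (F.ev z s (F.Ric a b)) ^ 2 := by
        rw [map_smul, map_sum, smul_eq_mul]
        congr 1
        refine Finset.sum_congr rfl (fun a _ => ?_)
        rw [map_sum]
        refine Finset.sum_congr rfl (fun b _ => ?_)
        rw [map_pow]
      rw [h4]
      refine mul_nonneg (by positivity) ?_
      exact Finset.sum_nonneg (fun a _ => Finset.sum_nonneg (fun b _ => sq_nonneg _))
  have h5 : F.ev z t (F.lam - c • u) = F.ev z t F.lam - c * F.ev z t u := by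
    rw [map_sub, map_smul, smul_eq_mul]
  rw [h5] at h0
  linarith

end Pool.Agent.Helper69.RFn
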