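import Pool.Agent.Helper47.RFn.Alg

/-!
# Project RFn, packet CL: closure properties of algebraic curvature tensors
-/

set_option autoImplicit false

namespace Pool.Agent.Helper47.RFn

open Finset

theorem BB_swap {n : ℕ} {R : T4 n} (h : IsCurv R) (a b c d : Fin n) :
    BB R R b a d c = BB R R a b c d := by
  unfold BB
  rw [Finset.sum_comm]
  exact Finset.sum_congr rfl fun e _ => Finset.sum_congr rfl fun f _ => by
    rw [h.pair b f a e, h.pair d f c e]

theorem BB_comm {n : ℕ} (R : T4 n) (a b c d : Fin n) :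
    BB R R c d a b = BB R R a b c d := by
  unfold BB
  exact Finset.sum_congr rfl fun e _ => Finset.sum_congr rfl fun f _ => by ring

theorem IsCurv.Q {n : ℕ} {R : T4 n} (h : IsCurv R) : IsCurv (Q R) where
  a12 a b c d := by
    simp only [RFn.Q]
    rw [BB_swap h a b d c, BB_swap h a b c d, BB_comm R a d b c, BB_comm R a c b d]
    ring
  a34 a b c d := by
    simp only [RFn.Q]
    ring
  pair a b c d := by
    simp only [RFn.Q]
    rw [BB_comm R a b c d, BB_comm R b a c d, BB_swap h a b d c, BB_swap h a c b d,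
      BB_swap h b c a d, BB_comm R a d b c]
  bian a b c d := by
    simp only [RFn.Q]
    rw [BB_comm R a d b c, BB_swap h b c d a, BB_swap h a b d c, BB_comm R c a b d,
      BB_swap h a c b d, BB_comm R a b c d]
    ring

theorem IsCurv.add {n : ℕ} {R S : T4 n} (h : IsCurv R) (h' : IsCurv S) : IsCurv (R + S) where
  a12 a b c d := by
    simp only [Pi.add_apply]
    rw [h.a12 a b c d, h'.a12 a b c d]
    ring
  a34 a b c d := by
    simp only [Pi.add_apply]
    rw [h.a34 a b c d, h'.a34 a b c d]
    ring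
  pair a b c d := by
    simp only [Pi.add_apply]
    rw [h.pair a b c d, h'.pair a b c d]
  bian a b c d := by
    simp only [Pi.add_apply]
    linear_combination h.bian a b c d + h'.bian a b c d

theorem IsCurv.smul {n : ℕ} (k : ℝ) {R : T4 n} (h : IsCurv R) : IsCurv (k • R) where
  a12 a b c d := by
    simp only [Pi.smul_apply, smul_eq_mul]
    rw [h.a12 a b c d]
    ring
  a34 a b c d := by
    simp only [Pi.smul_apply, smul_eq_mul]
    rw [h.a34 a b c d]
    ring
  pair a b c d := by
    simp only [Pi.smul_apply, smul_eq_mul]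
    rw [h.pair a b c d]
  bian a b c d := by
    simp only [Pi.smul_apply, smul_eq_mul]
    linear_combination k * h.bian a b c d

theorem IsCurv.sub {n : ℕ} {R S : T4 n} (h : IsCurv R) (h' : IsCurv S) : IsCurv (R - S) := by
  have h1 := h.add (h'.smul (-1))
  have h2 : R + (-1 : ℝ) • S = R - S := by
    rw [neg_one_smul, sub_eq_add_neg]
  rwa [h2] at h1

theorem isCurv_wdg {n : ℕ} {A B : M2 n} (hA : A.IsSymm) (hB : B.IsSymm) : IsCurv (wdg A B) where
  a12 a b c d := by
    simp only [wdg]
    ring
  a34 a b c d := by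
    simp only [wdg]
    ring
  pair a b c d := by
    simp only [wdg]
    rw [hA.apply a c, hA.apply b d, hA.apply b c, hA.apply a d, hB.apply a c, hB.apply b d,
      hB.apply b c, hB.apply a d]
    ring
  bian a b c d := by
    simp only [wdg]
    rw [hA.apply a c, hA.apply b c, hA.apply a b, hB.apply a c, hB.apply b c, hB.apply a b]
    ring

theorem isSymm_Ric {n : ℕ} {R : T4 n} (h : IsCurv R) : (Ric R).IsSymm := by
  refine Matrix.IsSymm.ext fun a c => ?_
  simp only [Ric]
  exact Finset.sum_congr rfl fun b _ => h.pair c b a b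

theorem isSymm_Ric0 {n : ℕ} {R : T4 n} (h : IsCurv R) : (Ric0 R).IsSymm := by
  unfold Ric0
  exact (isSymm_Ric h).sub (Matrix.isSymm_one.smul _)

theorem isSymm_sq {n : ℕ} {A : M2 n} (h : A.IsSymm) : (A * A).IsSymm := by
  rw [Matrix.IsSymm, Matrix.transpose_mul, h.eq]

theorem isCurv_Id4 (n : ℕ) : IsCurv (Id4 n) := isCurv_wdg Matrix.isSymm_one Matrix.isSymm_one

/-- Packet CL. -/
theorem goal_CL : Goal_CL := by
  intro n
  refine ⟨fun R h => h.Q, fun A B hA hB => isCurv_wdg hA hB, isCurv_Id4 n,
    fun R S h h' => h.add h', fun c R h => h.smul c, fun R S h h' => h.sub h',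
    fun R h => ⟨isSymm_Ric h, isSymm_Ric0 h⟩, fun a b R h => ⟨?_, ?_, ?_⟩, fun R A h hA => ?_⟩
  · unfold ell
    exact (h.add ((isCurv_Id4 n).smul _)).add
      ((isCurv_wdg (isSymm_Ric0 h) Matrix.isSymm_one).smul _)
  · unfold elli
    exact (h.sub ((isCurv_Id4 n).smul _)).sub
      ((isCurv_wdg (isSymm_Ric0 h) Matrix.isSymm_one).smul _)
  · unfold Dab
    exact ((((isCurv_wdg (isSymm_Ric0 h) (isSymm_Ric0 h)).smul _).add
      ((isCurv_wdg (isSymm_Ric h) (isSymm_Ric h)).smul _)).add
      ((isCurv_wdg (isSymm_sq (isSymm_Ric0 h)) Matrix.isSymm_one).smul _)).add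
      ((isCurv_Id4 n).smul _)
  · refine Matrix.IsSymm.ext fun a b => ?_
    simp only [act]
    rw [Finset.sum_comm]
    exact Finset.sum_congr rfl fun e _ => Finset.sum_congr rfl fun f _ => by
      rw [h.pair b f a e, hA.apply f e]

end Pool.Agent.Helper47.RFn
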